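import Mathlib

namespace Pool.Agent.Results.MP_4cfb12_co.Ortho

open Finset

variable {n : ℕ}

/-- algebraic degree exactly two -/
def Quad (F : (Fin n → ZMod 2) → Fin n → ZMod 2) : Prop :=
  (∃ (e : Fin n → ZMod 2) (d : Fin n → Fin n → ZMod 2) (c : Fin n → Fin n → Fin n → ZMod 2),
    ∀ x i, F x i = e i + ∑ j, x j * d j i + ∑ j, ∑ k, x j * x k * c j k i) ∧
  ¬ ∃ (e : Fin n → ZMod 2) (d : Fin n → Fin n → ZMod 2), ∀ x i, F x i = e i + ∑ j, x j * d j i

/-- almost perfect nonlinear -/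
def APN (F : (Fin n → ZMod 2) → Fin n → ZMod 2) : Prop :=
  ∀ a, a ≠ 0 → ∀ b, (univ.filter fun x => F (x + a) + F x = b).card ≤ 2

/-- `p` is the ortho-derivative of `F` -/
def OD (F p : (Fin n → ZMod 2) → Fin n → ZMod 2) : Prop :=
  p 0 = 0 ∧ ∀ a, a ≠ 0 → p a ≠ 0 ∧ ∀ x, p a ⬝ᵥ (F (x + a) + F x + (F a + F 0)) = 0

/-- `G` has nonlinearity `k` -/
def NL (G : (Fin n → ZMod 2) → Fin n → ZMod 2) (k : ℕ) : Prop :=
  IsLeast {m | ∃ b l : Fin n → ZMod 2, ∃ c : ZMod 2, b ≠ 0 ∧
    m = (univ.filter fun x => b ⬝ᵥ G x ≠ l ⬝ᵥ x + c).card} k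

theorem two (x : Fin n → ZMod 2) : x + x = 0 :=
  funext fun i => CharTwo.add_self_eq_zero (x i)

theorem inv (f : (Fin n → ZMod 2) → ZMod 2) (t : Fin n)
    (h : ∀ x, f (x + Pi.single t 1) = f x) : ∑ x, f x = 0 := by
  refine sum_involution (fun x _ => x + Pi.single t 1) (fun x _ => ?_) (fun x _ _ e => ?_)
    (fun _ _ => mem_univ _) fun x _ => ?_
  · rw [h, CharTwo.add_self_eq_zero]
  · simpa using congrFun e t
  · simp only [add_assoc, two, add_zero]

theorem fresh (hn : 4 ≤ n) (j k l : Fin n) : ∃ t, j ≠ t ∧ k ≠ t ∧ l ≠ t := by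
  have h : ({j, k, l} : Finset (Fin n)).card < (univ : Finset (Fin n)).card := by
    have := card_le_three (a := j) (b := k) (c := l)
    simp only [card_univ, Fintype.card_fin]; omega
  obtain ⟨t, -, ht⟩ := exists_mem_notMem_of_card_lt_card h
  simp only [mem_insert, mem_singleton, not_or] at ht
  exact ⟨t, Ne.symm ht.1, Ne.symm ht.2.1, Ne.symm ht.2.2⟩

theorem z1 (hn : 4 ≤ n) (r : Fin n → ZMod 2) : ∑ x : Fin n → ZMod 2, ∑ j, x j * r j = 0 := by
  rw [sum_comm]
  refine sum_eq_zero fun j _ => ?_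
  obtain ⟨t, h, -⟩ := fresh hn j j j
  exact inv _ t fun x => by simp [h]

theorem z2 (hn : 4 ≤ n) (r : Fin n → Fin n → ZMod 2) :
    ∑ x : Fin n → ZMod 2, ∑ j, ∑ k, x j * x k * r j k = 0 := by
  rw [sum_comm]
  refine sum_eq_zero fun j _ => ?_
  rw [sum_comm]
  refine sum_eq_zero fun k _ => ?_
  obtain ⟨t, h, h', -⟩ := fresh hn j k k
  exact inv _ t fun x => by simp [h, h']

theorem z3 (hn : 4 ≤ n) (r : Fin n → Fin n → Fin n → ZMod 2) :
    ∑ x : Fin n → ZMod 2, ∑ j, ∑ k, ∑ l, x j * x k * x l * r j k l = 0 := by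
  rw [sum_comm]
  refine sum_eq_zero fun j _ => ?_
  rw [sum_comm]
  refine sum_eq_zero fun k _ => ?_
  rw [sum_comm]
  refine sum_eq_zero fun l _ => ?_
  obtain ⟨t, h, h', h''⟩ := fresh hn j k l
  exact inv _ t fun x => by simp [h, h', h'']

theorem sumU (l : Fin n → ZMod 2) (g : (Fin n → ZMod 2) → ZMod 2) :
    ∑ x ∈ univ.filter (fun x => l ⬝ᵥ x = 0), g x = ∑ x, (1 + l ⬝ᵥ x) * g x := by
  rw [sum_filter]
  refine sum_congr rfl fun x _ => ?_
  have : ∀ u v : ZMod 2, (if u = 0 then v else 0) = (1 + u) * v := by decide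
  exact this _ _

theorem onto (B : (Fin n → ZMod 2) → Fin n → ZMod 2) (p b : Fin n → ZMod 2) (hp : p ≠ 0)
    (h1 : ∀ y, (univ.filter fun x => B x = y).card ≤ 2) (h2 : ∀ x, p ⬝ᵥ B x = 0)
    (hb : p ⬝ᵥ b = 0) : ∃ x, B x = b := by
  obtain ⟨t, ht⟩ := Function.ne_iff.1 hp
  have h01 : ∀ z : ZMod 2, z ≠ 0 → z = 1 := by decide
  set H := univ.filter fun y : Fin n → ZMod 2 => p ⬝ᵥ y = 0 with hH
  have c1 := card_le_mul_card_image (f := B) univ 2 fun y _ => h1 y
  have c2 : H.card ≤ Hᶜ.card := card_le_card_of_injOn (fun y => y + Pi.single t 1) (fun y hy => by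
      simp only [hH, coe_filter, mem_univ, true_and, Set.mem_ofPred_eq, coe_compl,
        Set.mem_compl_iff] at hy ⊢
      rw [dotProduct_add, hy, dotProduct_single, h01 _ ht]; simp)
    fun _ _ _ _ e => add_right_cancel e
  have c3 := card_add_card_compl H
  have hs : univ.image B ⊆ H := fun y hy => by
    obtain ⟨x, -, rfl⟩ := mem_image.1 hy
    simp [hH, h2]
  have e := eq_of_subset_of_card_le hs (by rw [card_univ] at c1; omega)
  have : b ∈ univ.image B := by rw [e]; simp [hH, hb]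
  obtain ⟨x, -, hx⟩ := mem_image.1 this
  exact ⟨x, hx⟩

theorem big (hn : 4 ≤ n) (F p : (Fin n → ZMod 2) → Fin n → ZMod 2) (hq : Quad F) (ha : APN F)
    (ho : OD F p) (b l : Fin n → ZMod 2) (hb : b ≠ 0) (h : ∀ x, b ⬝ᵥ p x = l ⬝ᵥ x) : False := by
  obtain ⟨⟨e, d, c, hF⟩, -⟩ := hq
  set B : (Fin n → ZMod 2) → (Fin n → ZMod 2) → Fin n → ZMod 2 :=
    fun a x => F (x + a) + F x + (F a + F 0) with hB
  have sym : ∀ a x, B a x = B x a := fun a x => by
    simp only [hB]; rw [add_comm x a]; abel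
  have fib : ∀ a, a ≠ 0 → ∀ y, (univ.filter fun x => B a x = y).card ≤ 2 := fun a h0 y => by
    refine le_trans (card_le_card fun x hx => ?_) (ha a h0 (y + (F a + F 0)))
    simp only [mem_filter, mem_univ, true_and, hB] at hx ⊢
    rw [← hx, add_assoc, two, add_zero]
  set U := (univ.filter fun x => l ⬝ᵥ x = 0).erase 0 with hU
  have inU : ∀ a x, B a x = b → x ∈ U := fun a x hx => by
    have h0 : x ≠ 0 := by
      rintro rfl
      apply hb
      rw [← hx]
      simp only [hB, zero_add, two]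
    refine mem_erase.2 ⟨h0, mem_filter.2 ⟨mem_univ _, ?_⟩⟩
    rw [← h, dotProduct_comm, ← hx, sym]
    exact (ho.2 x h0).2 a
  have nb : ∀ a ∈ U, ∃ x, x ≠ x + a ∧ B a x = b ∧ U.filter (fun y => B a y = b) = {x, x + a} := by
    intro a hU'
    obtain ⟨h0, hl⟩ := mem_erase.1 hU'
    obtain ⟨x, hx⟩ := onto (B a) (p a) b (ho.2 a h0).1 (fib a h0) (ho.2 a h0).2
      (by rw [dotProduct_comm, h]; exact (mem_filter.1 hl).2)
    have hx' : B a (x + a) = b := by
      rw [← hx]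
      simp only [hB, add_assoc x a a, two, add_zero]
      rw [add_comm (F x)]
    have hne : x ≠ x + a := fun e => h0 (left_eq_add.1 e)
    refine ⟨x, hne, hx, (eq_of_subset_of_card_le ?_ ?_).symm⟩
    · intro y hy
      simp only [mem_insert, mem_singleton] at hy
      rcases hy with rfl | rfl
      · exact mem_filter.2 ⟨inU a _ hx, hx⟩
      · exact mem_filter.2 ⟨inU a _ hx', hx'⟩
    · rw [card_pair hne]
      exact le_trans (card_le_card (filter_subset_filter _ (subset_univ _))) (fib a h0 b)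
  obtain ⟨i, hi⟩ := Function.ne_iff.1 hb
  set g : (Fin n → ZMod 2) → ZMod 2 := fun x => F x i + F 0 i with hg
  have s1 : ∑ a ∈ U, (g a + ∑ y ∈ U.filter (fun y => B a y = b), g y) = ∑ a ∈ U, b i := by
    refine sum_congr rfl fun a hU' => ?_
    obtain ⟨x, h1, h2, h3⟩ := nb a hU'
    rw [h3, sum_pair h1, ← h2]
    simp only [hg, hB, Pi.add_apply]
    linear_combination CharTwo.add_self_eq_zero (F 0 i)
  have s2 : ∑ a ∈ U, ∑ y ∈ U.filter (fun y => B a y = b), g y = 0 := by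
    simp only [sum_filter]
    rw [sum_comm]
    refine sum_eq_zero fun y hy => ?_
    obtain ⟨x, h1, -, h3⟩ := nb y hy
    simp only [sym _ y]
    rw [← sum_filter, h3, sum_pair h1, CharTwo.add_self_eq_zero]
  have m0 : (0 : Fin n → ZMod 2) ∈ univ.filter fun x => l ⬝ᵥ x = 0 := by simp
  have s3 : ∑ a ∈ U, g a = 0 := by
    rw [hU, sum_erase _ (show g 0 = 0 from CharTwo.add_self_eq_zero _), sumU]
    have : ∀ x, (1 + l ⬝ᵥ x) * g x = ∑ j, x j * d j i + ∑ j, ∑ k, x j * x k * c j k i +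
        (∑ t, ∑ j, x t * x j * (l t * d j i) +
          ∑ t, ∑ j, ∑ k, x t * x j * x k * (l t * c j k i)) := fun x => by
      have e1 : g x = ∑ j, x j * d j i + ∑ j, ∑ k, x j * x k * c j k i := by
        simp only [hg, hF, Pi.zero_apply, zero_mul, sum_const_zero, add_zero]
        linear_combination CharTwo.add_self_eq_zero (e i)
      rw [e1, add_mul, one_mul, mul_add, dotProduct, sum_mul, sum_mul]
      simp only [mul_sum]
      congr 2
      · exact sum_congr rfl fun t _ => sum_congr rfl fun j _ => by ring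
      · exact sum_congr rfl fun t _ => sum_congr rfl fun j _ => sum_congr rfl fun k _ => by ring
    simp only [this, sum_add_distrib, z1 hn, z2 hn, z3 hn, add_zero]
  have s4 : b i + ∑ a ∈ U, b i = 0 := by
    rw [hU, add_sum_erase _ (fun _ => b i) m0, sumU]
    simp only [add_mul, one_mul, sum_add_distrib, dotProduct, sum_mul]
    have a1 : ∑ _x : Fin n → ZMod 2, b i = 0 := inv _ i fun _ => rfl
    have a2 := z1 hn fun j => l j * b i
    rw [a1, zero_add, ← a2]
    exact sum_congr rfl fun x _ => sum_congr rfl fun j _ => by ring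
  rw [← s1, sum_add_distrib, s2, s3] at s4
  exact hi (by simpa using s4)

def F3 (x : Fin 3 → ZMod 2) (i : Fin 3) : ZMod 2 := x (i + 1) * x (i + 2)

theorem result (n : ℕ) (hn : 3 ≤ n) :
    (∃ F p : (Fin n → ZMod 2) → Fin n → ZMod 2, Quad F ∧ APN F ∧ OD F p ∧ NL p 0) ↔ n = 3 := by
  constructor
  · rintro ⟨F, p, hq, ha, ho, ⟨b, l, c, hb, h⟩, -⟩
    by_contra hh
    have h' : ∀ x, b ⬝ᵥ p x = l ⬝ᵥ x + c := fun x => by
      by_contra h1
      have := card_eq_zero.1 h.symm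
      rw [filter_eq_empty_iff] at this
      exact this (mem_univ x) h1
    have hc : c = 0 := by simpa [ho.1] using (h' 0).symm
    exact big (by omega) F p hq ha ho b l hb fun x => by rw [h', hc, add_zero]
  · rintro rfl
    refine ⟨F3, id, ⟨⟨0, 0, fun j k i => if j = i + 1 ∧ k = i + 2 then 1 else 0, by decide⟩, ?_⟩,
      by unfold APN; decide, ⟨rfl, fun a h => ⟨h, ?_⟩⟩, ⟨1, 1, 0, by decide, by simp⟩,
      fun _ _ => Nat.zero_le _⟩
    · rintro ⟨e, d, h⟩
      have h0 := h 0 0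
      have h1 := h ![0, 1, 0] 0
      have h2 := h ![0, 0, 1] 0
      have h3 := h ![0, 1, 1] 0
      simp [F3, Fin.sum_univ_three] at h0 h1 h2 h3
      rw [← h0, zero_add] at h1 h2 h3
      rw [← h1, ← h2] at h3
      exact absurd h3 (by decide)
    · revert a; decide

end Pool.Agent.Results.MP_4cfb12_co.Ortho
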